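import Pool.Agent.MP_251804_lc.Mc.Proc

/-! The finite core and the choice of the parameters. -/

set_option autoImplicit false

namespace Pool.Agent.MP_251804_lc.Mc
open Finset Filter Ed

lemma ec_union (H : ℕ → ℕ → ℕ → Prop) (j : ℕ) {X Y : Finset ℕ} (h : X ⊆ Y) :
    ec (fun x y => ∃ a < j, H a x y) X ≤ ∑ a ∈ range j, ec (H a) Y := by
  classical
  unfold ec
  refine le_trans (card_le_card fun e he => ?_) card_biUnion_le
  simp only [mem_filter, mem_biUnion, mem_range] at he ⊢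
  obtain ⟨h1, a, h2, h3⟩ := he
  exact ⟨a, h2, product_subset_product h h h1, h3⟩

theorem core (hG : GamP) (hL : LocP) (hP : PulP) {n w m k r g j T u : ℕ} {p D β z : ℝ}
    (g1 : 1 ≤ g) (r1 : 1 ≤ r) (w1 : 1 ≤ w) (wn : w + 1 ≤ n) (k1 : 1 ≤ k) (p0 : 0 < p) (p1 : p ≤ 1)
    (D1 : 1 ≤ D) (h1 : r ^ 2 * p * w ≤ D) (h2 : D ^ (g + 1) ≤ w) (h3 : Real.log w + 2 ≤ p * u / 2)
    (h4 : n * (4 * (u + 4 * r ^ 2 * D ^ (g + 1)) / w) ^ j < 1)
    (h5 : 32 * j * p * n ^ 2 ≤ z ^ 2) (z4 : 4 ≤ z) (b0 : 0 < β)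
    (h6 : 2 * β ≤ (1 / (2 * k : ℝ)) ^ T) (h7 : 2 * (n : ℝ) ^ r * β ^ T < (1 / (2 * k : ℝ)) ^ T)
    (h8 : z ≤ (1 / (2 * k : ℝ)) ^ ((k + j) * (r / g)) * β ^ j * n) (h9 : m ≤ z)
    (hc : CertAt n w k 2 r) : Good m k 2 r := by
  have kR : (1 : ℝ) ≤ k := by exact_mod_cast k1
  have rR : (1 : ℝ) ≤ r := by exact_mod_cast r1
  obtain ⟨Γ, a1, a2, a3, a4⟩ := hG w g r u p D g1 r1 w1 p0 p1 D1 h1 h2 h3
  obtain ⟨ψ, b1, b2⟩ := hP n w w j Γ _ (4 * p) a1 w1 (by omega) wn (by positivity) (by positivity)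
    a4 a3 h4
  have gr : ∀ a, Gr fun x y => Γ (ψ a x) (ψ a y) := fun a =>
    ⟨fun _ _ h => a1.1 _ _ h, fun _ h => a1.2 _ h⟩
  have gH : Gr fun x y => ∃ a < j, Γ (ψ a x) (ψ a y) :=
    ⟨fun _ _ ⟨a, h, h'⟩ => ⟨a, h, a1.1 _ _ h'⟩, fun _ ⟨_, _, h⟩ => a1.2 _ h⟩
  obtain ⟨c, c1, c2⟩ := hc (fun x y => ¬ ∃ a < j, Γ (ψ a x) (ψ a y))
    (fun x y h h' => h (gH.1 _ _ h')) fun S hS e => by
      obtain ⟨x, hx, y, hy, h⟩ := b1 S hS e
      exact ⟨x, hx, y, hy, fun q => gH.2 x (q ▸ h), fun q => q h⟩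
  obtain ⟨X, x1, x2, τ, x3, x4⟩ := procP (col (fun x y => ∃ a < j, Γ (ψ a x) (ψ a y)) c)
    (col_gr gH c) k r (r / g) j T (range n) (1 / (2 * k)) β z (by positivity)
    ((div_le_one (by positivity)).2 (by linarith)) b0 h6 (by rwa [card_range]) (by linarith)
    (by rwa [card_range]) (fun X hX hz => by
      have e1 : (X.card : ℝ) ^ 2 ≤ ∑ i ∈ range k,
          (ec (col (fun x y => ∃ a < j, Γ (ψ a x) (ψ a y)) c i) X : ℝ) +
            ec (fun x y => ∃ a < j, Γ (ψ a x) (ψ a y)) X + X.card := by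
        exact_mod_cast countP _ k c X c1
      have e2 : (ec (fun x y => ∃ a < j, Γ (ψ a x) (ψ a y)) X : ℝ) ≤
          j * (2 * (4 * p) * n ^ 2) := by
        refine le_trans (Nat.cast_le.2 (ec_union (fun a x y => Γ (ψ a x) (ψ a y)) j hX)) ?_
        rw [Nat.cast_sum]
        simpa using sum_le_card_nsmul _ _ _ fun a ha => b2 a (mem_range.1 ha)
      have e3 : z ^ 2 ≤ (X.card : ℝ) ^ 2 := pow_le_pow_left₀ (by linarith) hz 2
      obtain ⟨i, hi, h⟩ := exists_le_of_sum_le (s := range k)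
        (f := fun _ => 1 / (2 * k : ℝ) * (X.card : ℝ) ^ 2)
        (g := fun i => (ec (col (fun x y => ∃ a < j, Γ (ψ a x) (ψ a y)) c i) X : ℝ))
        (nonempty_range_iff.2 (by omega)) (by
          rw [sum_const, card_range, nsmul_eq_mul, show (k : ℝ) * (1 / (2 * k) * X.card ^ 2) =
            X.card ^ 2 / 2 by field_simp]
          nlinarith)
      exact ⟨i, mem_range.1 hi, h⟩)
    fun i _ ⟨S, s1, s2, s3⟩ => c2 S s1 s2 (fun a ha b hb e => (s3 a ha b hb e).2.1)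
      (monoN_of (v := i) fun a ha b hb e => (s3 a ha b hb e).2.2)
  exact filP (fun a x y => Γ (ψ a x) (ψ a y)) g r j k m c τ X gr
    (fun a => hL g r Γ a1 a2 (ψ a)) g1 c1 x3 (by exact_mod_cast h9.trans x2) x4

lemma ev_pow (C : ℝ) (hC : 0 < C) (e : ℕ) : ∀ᶠ x : ℝ in atTop, C * Real.log x ^ e ≤ x := by
  filter_upwards [(Real.isLittleO_pow_log_id_atTop (n := e)).def (inv_pos.2 hC),
    eventually_ge_atTop 0] with x h hx
  rw [id, Real.norm_of_nonneg hx, inv_mul_eq_div, le_div_iff₀ hC] at h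
  exact le_trans (by rw [mul_comm]; gcongr; exact le_abs_self _) h

/-- the parameters of the halving step -/
lemma num_drc {L lam θ : ℝ} {r : ℕ} (r1 : 1 ≤ r) (l1 : 1 ≤ lam) (L1 : 1 ≤ L) (t0 : 0 < θ)
    (t1 : θ ≤ 1) (h : 16 * lam * r ≤ θ ^ 2 * L) : ∃ T : ℕ,
    2 * Real.exp (-(θ * L)) ≤ Real.exp (-lam) ^ T ∧
      2 * Real.exp L ^ r * Real.exp (-(θ * L)) ^ T < Real.exp (-lam) ^ T := by
  have rR : (1 : ℝ) ≤ r := by exact_mod_cast r1
  have a1 : 16 * lam ≤ θ * L := by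
    have : θ ^ 2 * L ≤ θ * L := by gcongr; nlinarith
    nlinarith
  obtain ⟨T, b1, b2⟩ : ∃ T : ℕ, T * lam ≤ θ * L / 2 ∧ θ * L ≤ 4 * lam * T := by
    have c1 := Nat.floor_le (a := θ * L / (2 * lam)) (by positivity)
    have c2 := Nat.lt_floor_add_one (θ * L / (2 * lam))
    rw [le_div_iff₀ (by positivity)] at c1
    rw [div_lt_iff₀ (by positivity)] at c2
    exact ⟨⌊θ * L / (2 * lam)⌋₊, by linarith, by nlinarith⟩
  have b3 : 4 * r ≤ θ * T := by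
    have := mul_le_mul_of_nonneg_left b2 t0.le
    refine le_of_mul_le_mul_left ?_ (show 0 < 4 * lam by positivity)
    nlinarith
  have e2 : (2 : ℝ) ≤ Real.exp 1 := by linarith [Real.add_one_le_exp 1]
  have T0 : (0 : ℝ) ≤ T := Nat.cast_nonneg T
  refine ⟨T, ?_, ?_⟩
  · refine (mul_le_mul_of_nonneg_right e2 (Real.exp_pos _).le).trans ?_
    rw [← Real.exp_add, ← Real.exp_nat_mul, Real.exp_le_exp]
    linarith
  · refine lt_of_le_of_lt (b := Real.exp 1 * Real.exp L ^ r * Real.exp (-(θ * L)) ^ T)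
      (by gcongr) ?_
    rw [← Real.exp_nat_mul, ← Real.exp_nat_mul, ← Real.exp_nat_mul, ← Real.exp_add,
      ← Real.exp_add, Real.exp_lt_exp]
    have := mul_le_mul_of_nonneg_left a1 T0
    have := mul_le_mul_of_nonneg_right b3 (show 0 ≤ L by linarith)
    nlinarith

/-- the parameters of the base graph -/
lemma num_gam {s t w L r : ℝ} (hL : 12 ≤ L) (s1 : 38 * L ≤ s) (st : s ≤ t) (w1 : t ^ 16 ≤ 2 * w)
    (r0 : 0 ≤ r) (r1 : r ≤ s) (hw : Real.log w ≤ L) : ∃ u : ℕ,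
    Real.log w + 2 ≤ s ^ 2 / w * u / 2 ∧ 4 * (u + 4 * r ^ 2 * t ^ 8) / w ≤ 1 / s := by
  have s0 : 0 < s := by linarith
  have t1 : 456 ≤ t := by linarith
  have w0 : 0 < w := by
    have : 0 < t ^ 16 := by positivity
    linarith
  have c1 := Nat.le_ceil (w / (16 * s))
  have c2 := Nat.ceil_lt_add_one (a := w / (16 * s)) (by positivity)
  refine ⟨⌈w / (16 * s)⌉₊, ?_, ?_⟩
  · have := mul_le_mul_of_nonneg_left c1 (show 0 ≤ s ^ 2 / w by positivity)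
    rw [show s ^ 2 / w * (w / (16 * s)) = s / 16 by field_simp] at this
    linarith
  · rw [div_le_div_iff₀ w0 s0]
    have d1 := mul_le_mul_of_nonneg_right c2.le s0.le
    rw [add_mul, show w / (16 * s) * s = w / 16 by field_simp] at d1
    have d2 : r ^ 2 * t ^ 8 * s ≤ t ^ 2 * t ^ 8 * t := by gcongr; linarith
    have d3 : 456 * t ^ 11 ≤ t ^ 16 := by
      rw [show t ^ 16 = t ^ 5 * t ^ 11 by ring]
      gcongr
      exact t1.trans (le_self_pow₀ (by linarith) (by norm_num))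
    have d4 : t ≤ t ^ 11 := le_self_pow₀ (by linarith) (by norm_num)
    nlinarith

lemma ex_ceil {a e : ℝ} (a0 : 0 ≤ a) (e0 : 0 < e) : ∃ g : ℕ, a ≤ g * e ∧ g * e ≤ a + e := by
  have c1 := Nat.le_ceil (a / e)
  have c2 := (Nat.ceil_lt_add_one (a := a / e) (by positivity)).le
  rw [div_le_iff₀ e0] at c1
  rw [← sub_le_iff_le_add, le_div_iff₀ e0] at c2
  exact ⟨⌈a / e⌉₊, c1, by linarith⟩

lemma num_gj {ε lam k : ℝ} (e0 : 0 < ε) (e1 : ε < 1 / 2) (l1 : 1 ≤ lam) (k0 : 0 < k)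
    (h : 304 * 24480 ^ 2 * lam ^ 3 ≤ k * ε ^ 6) : ∃ (g j : ℕ) (θ : ℝ), 304 * lam ≤ g * ε ∧
      (g + 1) * ε ≤ 306 * lam ∧ 1 ≤ g ∧ 9 * (g + 1) ≤ j * ε ∧ j ≤ k ∧ 0 < θ ∧ θ ≤ 1 ∧
      θ * (8 * j) = ε ∧ 304 * lam ≤ θ ^ 2 * k := by
  obtain ⟨g, g1, g2⟩ := ex_ceil (a := 304 * lam) (by positivity) e0
  obtain ⟨j, j1, j2⟩ := ex_ceil (a := 9 * (g + 1 : ℝ)) (by positivity) e0
  have g3 : 1 ≤ g := Nat.pos_of_ne_zero fun e => by
    rw [e] at g1
    simp only [Nat.cast_zero, zero_mul] at g1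
    linarith
  have j3 : (1 : ℝ) ≤ j := by
    have : (0 : ℝ) ≤ g := Nat.cast_nonneg g
    by_contra c
    nlinarith
  have j4 : j * ε * ε ≤ 3060 * lam := by
    have := mul_le_mul_of_nonneg_right j2 e0.le
    nlinarith
  obtain ⟨θ, t0, t1⟩ : ∃ θ : ℝ, 0 < θ ∧ θ * (8 * j) = ε :=
    ⟨ε / (8 * j), by positivity, by field_simp⟩
  have t2 : ε ^ 3 ≤ θ * (24480 * lam) := by
    have := mul_le_mul_of_nonneg_left j4 t0.le
    have e : ε ^ 3 = θ * (8 * j) * ε * ε := by rw [t1]; ring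
    linarith
  have t3 : 304 * lam ≤ θ ^ 2 * k := by
    have c1 : (ε ^ 3) ^ 2 * k ≤ (θ * (24480 * lam)) ^ 2 * k := by gcongr
    refine le_of_mul_le_mul_left ?_ (show 0 < (24480 * lam) ^ 2 by positivity)
    linarith
  have t4 : θ ≤ 1 := by nlinarith
  refine ⟨g, j, θ, g1, by linarith, g3, j1, ?_, t0, t4, t1, t3⟩
  have c1 : θ ^ 2 * k ≤ θ * k := by
    rw [sq, mul_assoc]
    exact mul_le_of_le_one_left (by positivity) t4
  exact le_of_mul_le_mul_left (by linarith) t0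

lemma num_y {ε lam μ L g j : ℝ} (e0 : 0 < ε) (l1 : 1 ≤ lam) (l2 : lam ≤ μ) (L0 : 0 < L)
    (h : 2448 * μ ^ 2 ≤ L * ε ^ 2) (g1 : 1 ≤ g) (g2 : (g + 1) * ε ≤ 306 * lam)
    (j1 : 9 * (g + 1) ≤ j * ε) : ∃ y : ℝ, y * (8 * (g + 1)) = ε * L ∧ μ ≤ y ∧ y ≤ ε * L / 16 ∧
      L < j * y := by
  obtain ⟨y, y0, y1⟩ : ∃ y : ℝ, 0 < y ∧ y * (8 * (g + 1)) = ε * L :=
    ⟨ε * L / (8 * (g + 1)), by positivity, by field_simp⟩
  refine ⟨y, y1, ?_, by nlinarith, ?_⟩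
  · have c1 : y * (8 * ((g + 1) * ε)) ≤ y * (8 * (306 * μ)) :=
      mul_le_mul_of_nonneg_left (by linarith) y0.le
    have c2 : y * (8 * (g + 1)) * ε = ε * L * ε := by rw [y1]
    exact le_of_mul_le_mul_left (by linarith) (show 0 < 2448 * μ by linarith)
  · have := mul_le_mul_of_nonneg_left j1 y0.le
    have : 0 < y * (g + 1) := by positivity
    exact lt_of_mul_lt_mul_left (by linarith) e0.le

lemma num_es {ε lam L k r g j x : ℝ} (e0 : 0 < ε) (k0 : 0 ≤ k) (x0 : 0 ≤ x) (l0 : 0 ≤ lam)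
    (kr : k * r ≤ 19 * L) (g1 : 304 * lam ≤ g * ε) (jk : j ≤ k) (c1 : x * g ≤ r) :
    (k + j) * x * lam ≤ ε * L / 8 := by
  have c2 : (k + j) * x * (304 * lam) ≤ (2 * k) * x * (g * ε) := by gcongr; linarith
  have c3 : k * ε * (x * g) ≤ k * ε * r := by gcongr
  have c4 := mul_le_mul_of_nonneg_left kr e0.le
  linarith

lemma num_t {s t w n j : ℝ} (s0 : 1 ≤ s) (st : s ≤ t) (t5 : 456 ≤ t) (w3 : w ≤ t ^ 16)
    (w4 : t ^ 16 ≤ 2 * w) (q3 : t ^ 32 ≤ n) (jt : j ≤ t) :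
    w + 1 ≤ n ∧ t ^ 8 ≤ w ∧ s ^ 2 / w ≤ 1 ∧ 32 * j * (s ^ 2 / w) * n ^ 2 ≤ (n / t ^ 4) ^ 2 ∧
      4 ≤ n / t ^ 4 := by
  have p : ∀ a : ℕ, a ≠ 0 → 456 ≤ t ^ a := fun a h => t5.trans (le_self_pow₀ (by linarith) h)
  have p8 := p 8 (by norm_num)
  have p16 := p 16 (by norm_num)
  have d8 : t ^ 8 ≤ w := by nlinarith [show t ^ 16 = t ^ 8 * t ^ 8 by ring]
  have s2 : s ^ 2 ≤ t ^ 2 := by gcongr
  refine ⟨by nlinarith [show t ^ 32 = t ^ 16 * t ^ 16 by ring], d8, ?_, ?_, ?_⟩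
  · rw [div_le_one (by linarith)]
    exact s2.trans ((pow_le_pow_right₀ (by linarith) (by norm_num)).trans d8)
  · rw [div_pow, le_div_iff₀ (by positivity)]
    have c1 : 64 * j ≤ t ^ 5 * t := by nlinarith [p 5 (by norm_num)]
    have c2 : 32 * j * (s ^ 2 / w) * (t ^ 4) ^ 2 ≤ 1 := by
      rw [mul_div_assoc', div_mul_eq_mul_div, div_le_one (by linarith)]
      have : 64 * j * s ^ 2 * (t ^ 4) ^ 2 ≤ t ^ 5 * t * t ^ 2 * (t ^ 4) ^ 2 := by gcongr
      linarith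
    have := mul_le_mul_of_nonneg_right c2 (sq_nonneg n)
    linarith
  · rw [le_div_iff₀ (by positivity)]
    refine le_trans ?_ q3
    rw [show t ^ 32 = t ^ 28 * t ^ 4 by ring]
    gcongr
    linarith [p 28 (by norm_num)]

/-- With many colours on edges the system fails at every large `n`. -/
theorem many (hG : GamP) (hL : LocP) (hP : PulP) {ε : ℝ} (e0 : 0 < ε) (e1 : ε < 1 / 2) :
    ∃ K₀ : ℕ, ∀ᶠ n : ℕ in atTop, ∀ k r : ℕ, K₀ ≤ k → CertAt n ⌊(n : ℝ) ^ ε⌋₊ k 2 r →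
      Good ⌊(n : ℝ) ^ (1 - ε)⌋₊ k 2 r := by
  obtain ⟨K, hK⟩ := eventually_atTop.1 (ev_pow (2 * 304 * 24480 ^ 2 / ε ^ 6) (by positivity) 3)
  refine ⟨⌈K⌉₊ + 2, ?_⟩
  filter_upwards [ev_logge 12, ev_rpow e0 2, eventually_ge_atTop 2,
    ((Real.tendsto_log_atTop.comp tendsto_natCast_atTop_atTop).const_mul_atTop
      (show (0 : ℝ) < 38 by norm_num)).eventually (ev_pow (38 * 2448 / ε ^ 2) (by positivity) 2)]
    with n L12 n2 hn hμ k r hk hc
  by_contra hg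
  have n0 : (0 : ℝ) < n := by positivity
  have w2 : 2 ≤ ⌊(n : ℝ) ^ ε⌋₊ := Nat.le_floor (by exact_mod_cast n2)
  have r3 : 2 < r := (hc.good (floor_rpow_le (by omega) (by linarith)) (by omega)).lt_of_le w2
  have kr := kr_Half hn L12 (by omega : 2 ≤ k) r3
    fun h => hg (h.mono (floor_rpow_le (by omega) (by linarith)) le_rfl le_rfl)
  have kR : (2 : ℝ) ≤ k := by exact_mod_cast (by omega : 2 ≤ k)
  have rR : (3 : ℝ) ≤ r := by exact_mod_cast r3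
  have kL : (k : ℝ) ≤ 19 * Real.log n := (le_mul_of_one_le_right (by linarith) (by linarith)).trans kr
  have rL : (r : ℝ) ≤ 19 * Real.log n := (le_mul_of_one_le_left (by linarith) (by linarith)).trans kr
  have hk3 := hK (2 * k) (by
    have : (⌈K⌉₊ : ℝ) ≤ k := by exact_mod_cast (by omega : ⌈K⌉₊ ≤ k)
    linarith [Nat.le_ceil K])
  simp only [Function.comp] at hμ
  have nL : (n : ℝ) = Real.exp (Real.log n) := (Real.exp_log n0).symm
  have nε : (n : ℝ) ^ ε = Real.exp (Real.log n * ε) := Real.rpow_def_of_pos n0 ε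
  have nε' : (n : ℝ) ^ (1 - ε) = Real.exp (Real.log n * (1 - ε)) := Real.rpow_def_of_pos n0 _
  have dl : 1 / (2 * k : ℝ) = Real.exp (-Real.log (2 * k)) := by
    rw [Real.exp_neg, Real.exp_log (by positivity), one_div]
  have lμ : Real.log (2 * k) ≤ Real.log (38 * Real.log n) :=
    Real.log_le_log (by positivity) (by linarith)
  have l1 : 1 ≤ Real.log (2 * k) := by
    rw [Real.le_log_iff_exp_le (by positivity)]
    linarith [Real.exp_one_lt_d9]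
  have eμ : 38 * Real.log n = Real.exp (Real.log (38 * Real.log n)) :=
    (Real.exp_log (by positivity)).symm
  generalize Real.log (38 * Real.log n) = μ at *
  generalize Real.log (2 * k) = lam at *
  generalize Real.log n = L at *
  rw [div_mul_eq_mul_div, div_le_iff₀ (by positivity)] at hk3 hμ
  obtain ⟨g, j, θ, g1, g2, g3, j1, jk, t0, t4, t1, t3⟩ :=
    num_gj (k := k) e0 e1 l1 (by linarith) (by linarith)
  obtain ⟨T, T1, T2⟩ := num_drc (L := L) (lam := lam) (r := r) (by omega) l1 (by linarith) t0 t4 (by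
      have := mul_le_mul_of_nonneg_left kr (sq_nonneg θ)
      have := mul_le_mul_of_nonneg_right t3 (show (0 : ℝ) ≤ r by positivity)
      linarith)
  obtain ⟨y, y1, y2, y3, y4⟩ := num_y (L := L) (g := g) e0 l1 lμ (by linarith) (by linarith)
    (by exact_mod_cast g3) g2 j1
  have εL : 0 < ε * L := by positivity
  have εL' : ε * L ≤ 1 / 2 * L := by gcongr
  have s1 : 38 * L ≤ Real.exp y := eμ ▸ Real.exp_le_exp.2 y2
  have st : Real.exp y ≤ Real.exp (ε * L / 16) := Real.exp_le_exp.2 y3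
  have q1 : (Real.exp y ^ 4) ^ (g + 1) = Real.exp (ε * L / 16) ^ 8 := by
    rw [← pow_mul, ← Real.exp_nat_mul, ← Real.exp_nat_mul]
    congr 1
    push_cast
    linarith
  have q2 : (n : ℝ) ^ ε = Real.exp (ε * L / 16) ^ 16 := by
    rw [nε, ← Real.exp_nat_mul]
    congr 1
    push_cast
    ring
  have q3 : Real.exp (ε * L / 16) ^ 32 ≤ n := by
    rw [nL, ← Real.exp_nat_mul, Real.exp_le_exp]
    push_cast
    linarith
  have q4 : n * (1 / Real.exp y) ^ j < 1 := by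
    rw [nL, one_div, ← Real.exp_neg, ← Real.exp_nat_mul, ← Real.exp_add, Real.exp_lt_one_iff]
    linarith
  have q5 : n / Real.exp (ε * L / 16) ^ 4 ≤
      Real.exp (-lam) ^ ((k + j) * (r / g)) * Real.exp (-(θ * L)) ^ j * n := by
    rw [div_eq_inv_mul, ← Real.exp_nat_mul, ← Real.exp_neg, ← Real.exp_nat_mul,
      ← Real.exp_nat_mul, ← Real.exp_add]
    refine mul_le_mul_of_nonneg_right (Real.exp_le_exp.2 ?_) n0.le
    have c1 := num_es (x := (r / g : ℕ)) e0 (by linarith) (Nat.cast_nonneg _) (by linarith) kr g1 jk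
      (by exact_mod_cast Nat.div_mul_le_self r g)
    have c5 : θ * (8 * j) * L = ε * L := by rw [t1]
    rw [Nat.cast_mul, Nat.cast_add, Nat.cast_ofNat]
    linarith
  have q6 : (n : ℝ) ^ (1 - ε) ≤ n / Real.exp (ε * L / 16) ^ 4 := by
    rw [nε', le_div_iff₀ (by positivity), ← Real.exp_nat_mul, ← Real.exp_add]
    refine le_trans (Real.exp_le_exp.2 ?_) nL.ge
    push_cast
    linarith
  have w3 := Nat.floor_le (a := (n : ℝ) ^ ε) (by positivity)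
  have w4 := Nat.lt_floor_add_one ((n : ℝ) ^ ε)
  have w5 : (2 : ℝ) ≤ ⌊(n : ℝ) ^ ε⌋₊ := by exact_mod_cast w2
  have lw : Real.log ⌊(n : ℝ) ^ ε⌋₊ ≤ L := by
    rw [Real.log_le_iff_le_exp (by linarith), ← nL]
    exact_mod_cast floor_rpow_le (n := n) (by omega) (by linarith)
  have m1 := (Nat.floor_le (a := (n : ℝ) ^ (1 - ε)) (by positivity)).trans q6
  generalize ⌊(n : ℝ) ^ ε⌋₊ = w at *
  generalize Real.exp y = s at *
  generalize Real.exp (ε * L / 16) = t at *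
  rw [q2] at w3 w4
  have s0 : 1 ≤ s := by linarith
  obtain ⟨u, u1, u2⟩ := num_gam (r := r) L12 s1 st (w := w) (by linarith) (by positivity)
    (by linarith) lw
  obtain ⟨v1, v2, v3, v4, v5⟩ := num_t (j := j) s0 st (by linarith) w3 (by linarith) q3 (by linarith)
  refine hg (core hG hL hP (g := g) (j := j) (T := T) (u := u) (p := s ^ 2 / w) (D := s ^ 4)
    (β := Real.exp (-(θ * L))) (z := n / t ^ 4) g3 (by omega) (by omega) (by exact_mod_cast v1)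
    (by omega) (by positivity) v3 (one_le_pow₀ s0) ?_ (q1 ▸ v2) u1 ?_ v4 v5 (Real.exp_pos _)
    (dl ▸ T1) (by rw [dl, nL]; exact T2) (dl ▸ q5) m1 hc)
  · rw [mul_assoc, div_mul_cancel₀ _ (by linarith), show s ^ 4 = s ^ 2 * s ^ 2 by ring]
    gcongr
    linarith
  · refine lt_of_le_of_lt ?_ q4
    rw [q1]
    gcongr

/-- The combination with the counting theorem for larger `l`. -/
theorem final (hG : GamP) (hL : LocP) (hP : PulP) (ε : ℝ) (hε : 0 < ε) (hε2 : ε < 1 / 2) :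
    ∃ (K₀ : ℕ) (c : ℝ), 0 < c ∧
    ∀ K : Set ℕ, (∀ F : Finset ℕ, (F : Set ℕ) ⊆ K → ∑ a ∈ F, 1 / (a : ℝ) ≤ c) →
      ∀ k l : ℕ → ℕ, (∀ n, 2 ≤ k n) → (∀ n, 2 ≤ l n) →
        (∀ᶠ n : ℕ in atTop, (l n : ℝ) ≤ (n : ℝ) ^ ε) → Complete ε k l →
          (∀ᶠ n : ℕ in atTop, l n = 2 → k n < K₀) ∧
            ∃ᶠ n : ℕ in atTop, l n = 2 ∨ (l n = 3 ∧ k n ∉ K) := by
  obtain ⟨K₀, h0⟩ := many hG hL hP hε hε2
  obtain ⟨C, c, c0, h1⟩ := main ε hε hε2
  refine ⟨K₀, c, c0, fun K hK k l hk hl he hC =>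
    ⟨?_, (h1 K hK k l hk hl he hC).mono fun n h => h.imp_left And.left⟩⟩
  filter_upwards [h0, hC.eventually hk] with n a ⟨r, b1, b2⟩ e
  rw [e] at b1 b2
  exact not_le.1 fun h => b1 (a _ r h b2)

end Pool.Agent.MP_251804_lc.Mc
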