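import Pool.Agent.MP_251804_lc.Mc.St

set_option autoImplicit false

namespace Pool.Agent.MP_251804_lc.Mc
open Finset Filter Ed

lemma ec_le_Gam {E : Finset (ℕ × ℕ)} (hE : ∀ e ∈ E, e.1 < e.2) (Γ : ℕ → ℕ → Prop)
    (C C1 : Finset ℕ)
    (h : ∀ x ∈ C, ∀ y ∈ C, Γ x y → ((x, y) ∈ E ∨ (y, x) ∈ E) ∧ x ∈ C1 ∧ y ∈ C1) :
    ec Γ C ≤ 2 * (prs C1 ∩ E).card := by
  classical
  rw [two_mul]
  refine le_trans (card_le_card (t := (prs C1 ∩ E) ∪ (prs C1 ∩ E).image Prod.swap) ?_)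
    ((card_union_le _ _).trans (Nat.add_le_add_left card_image_le _))
  rintro ⟨x, y⟩ he
  obtain ⟨h1, h2⟩ := mem_filter.1 he
  obtain ⟨hx, hy⟩ := mem_product.1 h1
  obtain ⟨h3 | h3, h4, h5⟩ := h x hx y hy h2
  · exact mem_union_left _ (mem_inter.2 ⟨mem_prs.2 ⟨h4, h5, hE _ h3⟩, h3⟩)
  · exact mem_union_right _ (mem_image.2 ⟨(y, x),
      mem_inter.2 ⟨mem_prs.2 ⟨h5, h4, hE _ h3⟩, h3⟩, rfl⟩)

lemma term_Gam {M g s : ℕ} {x D : ℝ} (hg : 1 ≤ g) (hM : 1 ≤ M) (hx : 0 ≤ x) (hD : 1 ≤ D)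
    (h1 : x * M ≤ D) (h2 : D ^ (g + 1) ≤ M) : (M : ℝ) ^ s * x ^ (s + s / g) ≤ D ^ (g + 1) := by
  have hMR : (0 : ℝ) < M := by exact_mod_cast hM
  have h3 : s + s / g ≤ (g + 1) + (g + 1) * (s / g) := by
    have := Nat.lt_mul_div_succ s (show 0 < g by omega)
    nlinarith
  refine le_of_mul_le_mul_right ?_ (pow_pos hMR (s / g))
  calc (M : ℝ) ^ s * x ^ (s + s / g) * M ^ (s / g) = (x * M) ^ (s + s / g) := by
        rw [mul_pow, pow_add (M : ℝ)]; ring
    _ ≤ D ^ (s + s / g) := pow_le_pow_left₀ (by positivity) h1 _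
    _ ≤ D ^ ((g + 1) + (g + 1) * (s / g)) := pow_le_pow_right₀ hD h3
    _ = D ^ (g + 1) * (D ^ (g + 1)) ^ (s / g) := by rw [pow_add, pow_mul]
    _ ≤ _ := by gcongr

theorem gamP : GamP := by
  classical
  intro M g r u p D hg hr hM h0 h1 hD hA hB hC
  have hMR : (1 : ℝ) ≤ M := by exact_mod_cast hM
  have hrR : (1 : ℝ) ≤ r := by exact_mod_cast hr
  set P := prs (range M) with hP
  set A := (Icc 1 r).sigma fun s => powersetCard s (range M) with hA'
  let Z₁ : Finset (ℕ × ℕ) → ℝ := fun E => ∑ S ∈ powersetCard (u + 1) (range M),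
    ∏ e ∈ prs S, (if e ∈ E then (0 : ℝ) else 1)
  let Z₂ : Finset (ℕ × ℕ) → ℝ := fun E => ∑ a ∈ P, ∏ e ∈ {a}, (if e ∈ E then (1 : ℝ) else 0)
  let Z₃ : Finset (ℕ × ℕ) → ℝ := fun E => ∑ c ∈ A,
    ∑ F ∈ powersetCard (c.1 + c.1 / g) (prs c.2), ∏ e ∈ F, (if e ∈ E then (1 : ℝ) else 0)
  have e1 : ∑ E ∈ P.powerset, wgt p P E * Z₁ E ≤ 1 / 3 := by
    simp only [Z₁, mul_sum]
    rw [sum_comm]
    refine (sum_card_le (x := 1 / (3 * M)) (by positivity) _ fun S hS => ?_).trans ?_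
    · obtain ⟨hS1, hS2⟩ := mem_powersetCard.1 hS
      rw [exp_prod p 0 1 (prs_mono hS1), card_prs, hS2, mul_zero, zero_add, mul_one]
      calc _ ≤ Real.exp (-p) ^ (u + 1).choose 2 :=
            pow_le_pow_left₀ (by linarith) (by linarith [Real.add_one_le_exp (-p)]) _
        _ = Real.exp (-(p * u / 2)) ^ (u + 1) := by
            rw [← Real.exp_nat_mul, ← Real.exp_nat_mul, cast_choose_two]
            congr 1
            push_cast
            ring
        _ ≤ _ := by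
            refine pow_le_pow_left₀ (by positivity) ?_ _
            rw [one_div, ← Real.exp_log (show (0 : ℝ) < 3 * M by positivity), ← Real.exp_neg,
              Real.log_mul (by norm_num) (by positivity)]
            have := Real.log_le_sub_one_of_pos (show (0 : ℝ) < 3 by norm_num)
            exact Real.exp_le_exp.2 (by linarith)
    · have : (M : ℝ) * (1 / (3 * M)) = 1 / 3 := by field_simp
      rw [this]
      exact pow_le_of_le_one (by norm_num) (by norm_num) (by omega)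
  have e2 : ∑ E ∈ P.powerset, wgt p P E * Z₂ E ≤ p * M ^ 2 / 2 := by
    simp only [Z₂, mul_sum]
    rw [sum_comm, sum_congr rfl (g := fun _ => p) fun a ha => by
      rw [exp_prod p 1 0 (singleton_subset_iff.2 ha), card_singleton, mul_zero, add_zero, mul_one,
        pow_one], sum_const, nsmul_eq_mul, hP, card_prs, card_range, cast_choose_two]
    nlinarith [mul_pos h0 (show (0 : ℝ) < M by linarith)]
  have e3 : ∑ E ∈ P.powerset, wgt p P E * Z₃ E ≤ r * D ^ (g + 1) := by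
    simp only [Z₃, mul_sum]
    rw [sum_comm]
    have h3 : ∀ c ∈ A, ∑ E ∈ P.powerset, ∑ F ∈ powersetCard (c.1 + c.1 / g) (prs c.2),
        wgt p P E * ∏ e ∈ F, (if e ∈ E then (1 : ℝ) else 0) ≤
          ((r : ℝ) ^ 2 * p) ^ (c.1 + c.1 / g) := by
      intro c hc
      obtain ⟨c1, c2⟩ := mem_sigma.1 hc
      obtain ⟨c3, c4⟩ := mem_powersetCard.1 c2
      rw [sum_comm, sum_congr rfl (g := fun _ => p ^ (c.1 + c.1 / g)) fun F hF => by
        obtain ⟨f1, f2⟩ := mem_powersetCard.1 hF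
        rw [exp_prod p 1 0 (f1.trans (prs_mono c3)), f2, mul_zero, add_zero, mul_one],
        sum_const, card_powersetCard, nsmul_eq_mul, mul_pow, card_prs, c4]
      refine mul_le_mul_of_nonneg_right ?_ (by positivity)
      have : (c.1.choose 2).choose (c.1 + c.1 / g) ≤ (r ^ 2) ^ (c.1 + c.1 / g) :=
        (Nat.choose_le_pow _ _).trans (Nat.pow_le_pow_left ((Nat.choose_le_pow _ _).trans
          (Nat.pow_le_pow_left (mem_Icc.1 c1).2 _)) _)
      exact_mod_cast this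
    refine (sum_le_sum h3).trans ?_
    rw [hA', sum_sigma]
    refine (sum_le_card_nsmul _ _ (D ^ (g + 1)) fun s _ => ?_).trans (by simp)
    simp only
    rw [sum_const, card_powersetCard, card_range, nsmul_eq_mul]
    refine le_trans ?_ (term_Gam (s := s) hg hM (by positivity) hD hA hB)
    have : ((M.choose s : ℕ) : ℝ) ≤ (M : ℝ) ^ s := by exact_mod_cast Nat.choose_le_pow M s
    gcongr
  have k2 : 0 < 2 * p * (M : ℝ) ^ 2 := by positivity
  have k3 : 0 < 4 * r * D ^ (g + 1) := by positivity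
  obtain ⟨E, hE, hZ⟩ := exists_lt_one h0.le h1 P
    (fun E => Z₁ E + Z₂ E / (2 * p * M ^ 2) + Z₃ E / (4 * r * D ^ (g + 1))) (by
      simp only [mul_add, sum_add_distrib, ← mul_div_assoc]
      rw [← sum_div, ← sum_div]
      have a2 : (∑ E ∈ P.powerset, wgt p P E * Z₂ E) / (2 * p * M ^ 2) ≤ 1 / 4 := by
        rw [div_le_iff₀ k2]; linarith
      have a3 : (∑ E ∈ P.powerset, wgt p P E * Z₃ E) / (4 * r * D ^ (g + 1)) ≤ 1 / 4 := by
        rw [div_le_iff₀ k3]; linarith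
      linarith)
  have n0 : ∀ (F : Finset (ℕ × ℕ)) (a b : ℝ), 0 ≤ a → 0 ≤ b →
      0 ≤ ∏ e ∈ F, (if e ∈ E then a else b) :=
    fun F a b ha hb => prod_nonneg fun e _ => by split_ifs <;> assumption
  have z1 : 0 ≤ Z₁ E := sum_nonneg fun S _ => n0 _ _ _ le_rfl zero_le_one
  have z2 : 0 ≤ Z₂ E / (2 * p * M ^ 2) :=
    div_nonneg (sum_nonneg fun S _ => n0 _ _ _ zero_le_one le_rfl) k2.le
  have z3 : 0 ≤ Z₃ E / (4 * r * D ^ (g + 1)) := div_nonneg
    (sum_nonneg fun S _ => sum_nonneg fun F _ => n0 _ _ _ zero_le_one le_rfl) k3.le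
  have y1 : Z₁ E < 1 := by linarith
  have y2 : Z₂ E < 2 * p * M ^ 2 := (div_lt_one k2).1 (by linarith)
  have y3 : Z₃ E < 4 * r * D ^ (g + 1) := (div_lt_one k3).1 (by linarith)
  have hlt : ∀ e ∈ E, e.1 < e.2 := fun e he => (mem_prs.1 (hE he)).2.2
  set B := A.filter fun c => c.1 + c.1 / g ≤ (prs c.2 ∩ E).card with hB'
  set Bad := B.biUnion fun c => c.2 with hBad
  have b1 : (B.card : ℝ) ≤ Z₃ E := by
    rw [card_eq_sum_ones, Nat.cast_sum]
    refine (sum_le_sum fun c hc => ?_).trans (sum_le_sum_of_subset_of_nonneg (filter_subset _ _)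
      fun c _ _ => sum_nonneg fun F _ => n0 _ _ _ zero_le_one le_rfl)
    obtain ⟨F, f1, f2⟩ := exists_subset_card_eq (mem_filter.1 hc).2
    have := single_le_sum (fun F _ => n0 F _ _ zero_le_one le_rfl)
      (mem_powersetCard.2 ⟨f1.trans inter_subset_left, f2⟩)
    rw [prod_eq_one fun e he => if_pos (mem_inter.1 (f1 he)).2] at this
    exact_mod_cast this
  have b2 : (Bad.card : ℝ) ≤ 4 * r ^ 2 * D ^ (g + 1) := by
    have : Bad.card ≤ B.card * r := card_biUnion_le_card_mul _ _ _ fun c hc => by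
      obtain ⟨c1, c2⟩ := mem_sigma.1 (mem_filter.1 hc).1
      rw [(mem_powersetCard.1 c2).2]
      exact (mem_Icc.1 c1).2
    have h2 : (Bad.card : ℝ) ≤ B.card * r := by exact_mod_cast this
    nlinarith
  refine ⟨fun x y => ((x, y) ∈ E ∨ (y, x) ∈ E) ∧ x ∉ Bad ∧ y ∉ Bad,
    ⟨fun x y h => ⟨h.1.symm, h.2.2, h.2.1⟩, fun x h => lt_irrefl _ (hlt _ (h.1.elim id id))⟩,
    fun C hne hC => ?_, ?_, fun I hI hind => ?_⟩
  · set C1 := (C ∩ range M) \ Bad with hC1
    have h2 := ec_le_Gam hlt (fun x y => ((x, y) ∈ E ∨ (y, x) ∈ E) ∧ x ∉ Bad ∧ y ∉ Bad) C C1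
      fun x hx y hy h => by
        have : x ∈ range M ∧ y ∈ range M := by
          rcases h.1 with h3 | h3 <;> obtain ⟨a1, a2, -⟩ := mem_prs.1 (hE h3)
          · exact ⟨a1, a2⟩
          · exact ⟨a2, a1⟩
        exact ⟨h.1, mem_sdiff.2 ⟨mem_inter.2 ⟨hx, this.1⟩, h.2.1⟩,
          mem_sdiff.2 ⟨mem_inter.2 ⟨hy, this.2⟩, h.2.2⟩⟩
    have h3 : C1.card ≤ C.card := card_le_card (sdiff_subset.trans inter_subset_left)
    have h4 : g * (prs C1 ∩ E).card + g ≤ (g + 1) * C.card := by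
      rcases C1.eq_empty_or_nonempty with h | ⟨x, hx⟩
      · have := card_pos.2 hne
        rw [h]
        simp only [prs, product_empty, filter_empty, empty_inter, card_empty]
        nlinarith
      · have h5 : (prs C1 ∩ E).card < C1.card + C1.card / g := by
          by_contra hc
          refine (mem_sdiff.1 hx).2 (mem_biUnion.2 ⟨⟨C1.card, C1⟩, mem_filter.2 ⟨mem_sigma.2
            ⟨mem_Icc.2 ⟨card_pos.2 ⟨x, hx⟩, h3.trans hC⟩, mem_powersetCard.2
              ⟨sdiff_subset.trans inter_subset_right, rfl⟩⟩, not_lt.1 hc⟩, hx⟩)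
        have h6 := Nat.mul_div_le C1.card g
        nlinarith
    nlinarith
  · have h2 := ec_le_Gam hlt (fun x y => ((x, y) ∈ E ∨ (y, x) ∈ E) ∧ x ∉ Bad ∧ y ∉ Bad)
      (range M) (range M) fun x hx y hy h => ⟨h.1, hx, hy⟩
    have h3 : Z₂ E = (P ∩ E).card := by simp [Z₂]
    have h4 : (ec (fun x y => ((x, y) ∈ E ∨ (y, x) ∈ E) ∧ x ∉ Bad ∧ y ∉ Bad) (range M) : ℝ) ≤
      2 * (P ∩ E).card := by exact_mod_cast h2
    linarith
  · have h2 : (I \ Bad).card ≤ u := by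
      by_contra hc
      obtain ⟨S, s1, s2⟩ := exists_subset_card_eq (Nat.succ_le_of_lt (not_le.1 hc))
      have := single_le_sum (fun S _ => n0 (prs S) _ _ le_rfl zero_le_one)
        (mem_powersetCard.2 ⟨s1.trans (sdiff_subset.trans hI), s2⟩)
      rw [prod_eq_one fun e he => by
        obtain ⟨a1, a2, -⟩ := mem_prs.1 he
        exact if_neg fun h => hind _ (mem_sdiff.1 (s1 a1)).1 _ (mem_sdiff.1 (s1 a2)).1
          ⟨Or.inl h, (mem_sdiff.1 (s1 a1)).2, (mem_sdiff.1 (s1 a2)).2⟩] at this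
      have h3 : 1 ≤ Z₁ E := this
      linarith
    have h3 : (I.card : ℝ) ≤ u + Bad.card := by
      exact_mod_cast (card_le_card_sdiff_add_card (s := I) (t := Bad)).trans
        (Nat.add_le_add_right h2 _)
    linarith

end Pool.Agent.MP_251804_lc.Mc
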