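import Pool.Agent.MP_251804_lc.Mc.St

/-! Pullbacks of locally sparse graphs are locally almost bipartite. -/

set_option autoImplicit false

namespace Pool.Agent.MP_251804_lc.Mc
open Finset Filter Ed

theorem grow_Loc {E E' : ℕ → ℕ → Prop} {U N : Finset ℕ} {v : ℕ} (hv : v ∉ U) (hN : N ⊆ U)
    (h1 : ∀ x ∈ U, ∀ y ∈ U, E x y → E' x y) (h2 : ∀ x ∈ N, E' v x ∧ E' x v) :
    ec E U + 2 * N.card ≤ ec E' (insert v U) := by
  classical
  have d1 : Disjoint ({v} ×ˢ N) (N ×ˢ {v}) := disjoint_left.2 fun e a b =>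
    hv (mem_singleton.1 (mem_product.1 a).1 ▸ hN (mem_product.1 b).1)
  have d2 : Disjoint ((U ×ˢ U).filter fun e => E e.1 e.2) ({v} ×ˢ N ∪ N ×ˢ {v}) :=
    disjoint_left.2 fun e a b => by
      have a' := mem_product.1 (mem_filter.1 a).1
      rcases mem_union.1 b with b | b
      · exact hv (mem_singleton.1 (mem_product.1 b).1 ▸ a'.1)
      · exact hv (mem_singleton.1 (mem_product.1 b).2 ▸ a'.2)
  have h3 := card_union_of_disjoint d2
  rw [card_union_of_disjoint d1, card_product, card_product, card_singleton, one_mul, mul_one,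
    ← two_mul] at h3
  refine le_trans (le_of_eq (by convert h3.symm; rw [ec])) (card_le_card ?_)
  rintro ⟨x, y⟩ h
  simp only [mem_union, mem_filter, mem_product, mem_singleton, mem_insert] at h ⊢
  rcases h with ⟨⟨a, b⟩, c⟩ | ⟨rfl, a⟩ | ⟨a, rfl⟩
  · exact ⟨⟨Or.inr a, Or.inr b⟩, h1 x a y b c⟩
  · exact ⟨⟨Or.inl rfl, Or.inr (hN a)⟩, (h2 y a).1⟩
  · exact ⟨⟨Or.inr (hN a), Or.inl rfl⟩, (h2 x a).2⟩

theorem up_Loc {g r : ℕ} {Γ : ℕ → ℕ → Prop} (h : Spr g r Γ) {U : Finset ℕ} (hU : U.card ≤ r)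
    {lb : ℕ → ℕ} {b : ℕ} (hb : 2 * (U.card + b) ≤
      ec (fun x y => Γ x y ∧ lb x = lb y) U + 2 * (U.image lb).card) : g * b ≤ U.card := by
  classical
  have h1 : ec (fun x y => Γ x y ∧ lb x = lb y) U ≤
      ∑ a ∈ U.image lb, ec Γ (U.filter fun x => lb x = a) := by
    refine le_trans (card_le_card ?_) card_biUnion_le
    rintro ⟨x, y⟩ h
    simp only [mem_filter, mem_product, mem_biUnion] at h ⊢
    exact ⟨lb x, mem_image_of_mem _ h.1.1, ⟨⟨h.1.1, rfl⟩, h.1.2, h.2.2.symm⟩, h.2.1⟩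
  have h2 := sum_le_sum fun a (ha : a ∈ U.image lb) => h (U.filter fun x => lb x = a)
    (by obtain ⟨x, hx, e⟩ := mem_image.1 ha; exact ⟨x, mem_filter.2 ⟨hx, e⟩⟩)
    ((card_filter_le _ _).trans hU)
  rw [sum_add_distrib, sum_const, ← mul_sum, ← mul_sum, ← card_eq_sum_card_image,
    smul_eq_mul] at h2
  nlinarith [Nat.mul_le_mul_left g h1, Nat.mul_le_mul_left g hb]

theorem wt_Loc {g v : ℕ} {om : ℕ → ℕ} {U B B' : Finset ℕ} (hv : v ∉ U) (hB : B ⊆ U)
    (hm : ∀ x ∈ U, om v ≤ om x) (h1 : B' ⊆ insert v B)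
    (h2 : ∀ t, g * ∑ y ∈ B, (om y - t) ≤ ∑ y ∈ U, (om y - t))
    (h3 : g * B'.card ≤ (insert v U).card) (t : ℕ) :
    g * ∑ y ∈ B', (om y - t) ≤ ∑ y ∈ insert v U, (om y - t) := by
  have h4 : ∀ t, om v ≤ t → g * ∑ y ∈ B', (om y - t) ≤ ∑ y ∈ insert v U, (om y - t) := by
    intro t ht
    have h5 := sum_le_sum_of_subset (f := fun y => om y - t) h1
    rw [sum_insert fun h => hv (hB h), Nat.sub_eq_zero_of_le ht, zero_add] at h5
    rw [sum_insert hv, Nat.sub_eq_zero_of_le ht, zero_add]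
    exact (Nat.mul_le_mul_left g h5).trans (h2 t)
  rcases le_total (om v) t with ht | ht
  · exact h4 t ht
  have h6 : ∀ X ⊆ insert v U, ∑ y ∈ X, (om y - t) =
      ∑ y ∈ X, (om y - om v) + X.card * (om v - t) := fun X hX => by
    rw [← smul_eq_mul, ← sum_const, ← sum_add_distrib]
    refine sum_congr rfl fun y hy => ?_
    rcases mem_insert.1 (hX hy) with rfl | h
    · omega
    · have := hm y h
      omega
  rw [h6 _ (h1.trans (insert_subset_insert v hB)), h6 _ Subset.rfl, mul_add, ← mul_assoc]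
  exact add_le_add (h4 _ le_rfl) (Nat.mul_le_mul_right _ h3)

theorem main_Loc {g r : ℕ} {Γ : ℕ → ℕ → Prop} (hG : Gr Γ) (h : Spr g r Γ) (om : ℕ → ℕ)
    (U : Finset ℕ) (hU : U.card ≤ r) : ∃ B ⊆ U, ∃ (sd : ℕ → Bool) (lb : ℕ → ℕ),
      (∀ x ∈ U, ∀ y ∈ U, x ∉ B → y ∉ B → Γ x y → sd x ≠ sd y ∧ lb x = lb y) ∧
      2 * (U.card + B.card) ≤ ec (fun x y => Γ x y ∧ lb x = lb y) U + 2 * (U.image lb).card ∧
      ∀ t, g * ∑ y ∈ B, (om y - t) ≤ ∑ y ∈ U, (om y - t) := by
  classical
  induction U using Finset.induction_on_min_value om with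
  | empty => exact ⟨∅, Subset.rfl, fun _ => true, id, by simp, by simp, by simp⟩
  | insert v U hv hm ih =>
    obtain ⟨B, hB, sd, lb, h1, h2, h3⟩ := ih ((card_le_card (subset_insert v U)).trans hU)
    have hc := card_insert_of_notMem hv
    have hne : ∀ x ∈ U, x ≠ v := fun x hx e => hv (e ▸ hx)
    obtain ⟨N, hN⟩ : ∃ N : Finset ℕ, ∀ x, x ∈ N ↔ x ∈ U ∧ x ∉ B ∧ Γ v x :=
      ⟨U.filter fun x => x ∉ B ∧ Γ v x, fun x => mem_filter⟩
    by_cases hi : ∃ x ∈ N, ∃ y ∈ N, lb x = lb y ∧ x ≠ y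
    · obtain ⟨x, hx, y, hy, e, hxy⟩ := hi
      rw [hN] at hx hy
      obtain ⟨lb', e1, e2⟩ : ∃ lb' : ℕ → ℕ, lb' v = lb x ∧ ∀ z ∈ U, lb' z = lb z :=
        ⟨Function.update lb v (lb x), by simp, fun z hz => Function.update_of_ne (hne z hz) _ _⟩
      have k1 := grow_Loc (E := fun x y => Γ x y ∧ lb x = lb y)
        (E' := fun x y => Γ x y ∧ lb' x = lb' y) (N := {x, y}) hv
        (insert_subset hx.1 (singleton_subset_iff.2 hy.1))
        (fun a ha b hb k => ⟨k.1, by rw [e2 a ha, e2 b hb, k.2]⟩) (fun z hz => by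
          rcases mem_insert.1 hz with rfl | hz
          · exact ⟨⟨hx.2.2, by rw [e1, e2 z hx.1]⟩, hG.1 _ _ hx.2.2, by rw [e1, e2 z hx.1]⟩
          · rw [mem_singleton.1 hz]
            exact ⟨⟨hy.2.2, by rw [e1, e2 y hy.1, e]⟩, hG.1 _ _ hy.2.2, by rw [e1, e2 y hy.1, e]⟩)
      have k2 : (U.image lb).card ≤ ((insert v U).image lb').card := card_le_card fun a ha => by
        obtain ⟨z, hz, rfl⟩ := mem_image.1 ha
        exact mem_image.2 ⟨z, mem_insert_of_mem hz, e2 z hz⟩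
      have k3 := card_insert_le v B
      rw [card_pair hxy] at k1
      have k4 : 2 * ((insert v U).card + (insert v B).card) ≤
          ec (fun x y => Γ x y ∧ lb' x = lb' y) (insert v U) +
            2 * ((insert v U).image lb').card := by omega
      refine ⟨insert v B, insert_subset_insert v hB, sd, lb', fun a ha b hb na nb k => ?_, k4,
        wt_Loc hv hB hm Subset.rfl h3 (up_Loc h hU k4)⟩
      rw [mem_insert, not_or] at na nb
      have ha' := (mem_insert.1 ha).resolve_left na.1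
      have hb' := (mem_insert.1 hb).resolve_left nb.1
      rw [e2 a ha', e2 b hb']
      exact h1 a ha' b hb' na.2 nb.2 k
    · obtain ⟨a0, ha0⟩ := Infinite.exists_notMem_finset (U.image lb)
      obtain ⟨lb', e1, e2⟩ : ∃ lb' : ℕ → ℕ, lb' v = a0 ∧
          ∀ z ∈ U, lb' z = if lb z ∈ N.image lb then a0 else lb z :=
        ⟨fun z => if z = v then a0 else _, if_pos rfl, fun z hz => if_neg (hne z hz)⟩
      obtain ⟨sd', f1, f2⟩ : ∃ sd' : ℕ → Bool, sd' v = true ∧
          ∀ z ∈ U, sd' z = xor (sd z) (decide (∃ x ∈ N, lb x = lb z ∧ sd x = true)) :=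
        ⟨fun z => if z = v then true else _, if_pos rfl, fun z hz => if_neg (hne z hz)⟩
      have e3 : ∀ x ∈ N, lb' x = lb' v ∧ sd' x ≠ sd' v := fun x hx => by
        rw [e1, e2 x ((hN x).1 hx).1, if_pos (mem_image_of_mem _ hx), f1, f2 x ((hN x).1 hx).1]
        refine ⟨rfl, ?_⟩
        cases e : sd x
        · rw [decide_eq_false fun ⟨y, hy, k1, k2⟩ => hi ⟨y, hy, x, hx, k1, fun k3 => by
            rw [k3, e] at k2; exact Bool.false_ne_true k2⟩]
          exact Bool.false_ne_true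
        · rw [decide_eq_true ⟨x, hx, rfl, e⟩]
          exact Bool.false_ne_true
      have k1 := grow_Loc (E := fun x y => Γ x y ∧ lb x = lb y)
        (E' := fun x y => Γ x y ∧ lb' x = lb' y) (N := N) hv (fun x hx => ((hN x).1 hx).1)
        (fun a ha b hb k => ⟨k.1, by rw [e2 a ha, e2 b hb, k.2]⟩) fun z hz =>
          ⟨⟨((hN z).1 hz).2.2, (e3 z hz).1.symm⟩, hG.1 _ _ ((hN z).1 hz).2.2, (e3 z hz).1⟩
      have k2 : (insert a0 (U.image lb \ N.image lb)).card ≤ ((insert v U).image lb').card :=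
        card_le_card (insert_subset (mem_image.2 ⟨v, mem_insert_self _ _, e1⟩) fun a ha => by
          obtain ⟨z, hz, rfl⟩ := mem_image.1 (mem_sdiff.1 ha).1
          exact mem_image.2 ⟨z, mem_insert_of_mem hz, by
            rw [e2 z hz, if_neg (mem_sdiff.1 ha).2]⟩)
      rw [card_insert_of_notMem fun k => ha0 (mem_sdiff.1 k).1] at k2
      have k3 := le_card_sdiff (N.image lb) (U.image lb)
      have k5 := card_image_le (s := N) (f := lb)
      have k4 : 2 * ((insert v U).card + B.card) ≤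
          ec (fun x y => Γ x y ∧ lb' x = lb' y) (insert v U) +
            2 * ((insert v U).image lb').card := by omega
      refine ⟨B, hB.trans (subset_insert v U), sd', lb', fun a ha b hb na nb k => ?_, k4,
        wt_Loc hv hB hm (subset_insert v B) h3 (up_Loc h hU k4)⟩
      rw [mem_insert] at ha hb
      rcases ha with rfl | ha <;> rcases hb with rfl | hb
      · exact absurd k (hG.2 _)
      · have := e3 b ((hN b).2 ⟨hb, nb, k⟩)
        exact ⟨this.2.symm, this.1.symm⟩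
      · exact (e3 a ((hN a).2 ⟨ha, na, hG.1 _ _ k⟩)).symm
      · obtain ⟨k6, k7⟩ := h1 a ha b hb na nb k
        rw [e2 a ha, e2 b hb, f2 a ha, f2 b hb, k7]
        exact ⟨fun e => k6 (Bool.xor_left_inj.1 e), rfl⟩

theorem locP : LocP := by
  intro g r Γ hG h φ S hS
  obtain ⟨B, -, sd, lb, h1, -, h3⟩ := main_Loc hG h (fun y => (S.filter fun x => φ x = y).card)
    (S.image φ) (card_image_le.trans hS)
  have h4 := h3 0
  simp only [Nat.sub_zero] at h4
  rw [← card_eq_sum_card_image, sum_card_fiberwise_eq_card_filter] at h4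
  have h5 := card_filter_add_card_filter_not (s := S) fun x => φ x ∈ B
  have h6 := card_filter_add_card_filter_not (s := S.filter fun x => φ x ∉ B)
    fun x => sd (φ x) = true
  have h7 : ∀ b, Indp (fun x y => Γ (φ x) (φ y))
      ((S.filter fun x => φ x ∉ B).filter fun x => sd (φ x) = b) := fun b x hx y hy k => by
    simp only [mem_filter] at hx hy
    exact (h1 _ (mem_image_of_mem _ hx.1.1) _ (mem_image_of_mem _ hy.1.1) hx.1.2 hy.1.2 k).1
      (hx.2.trans hy.2.symm)
  simp only [Bool.not_eq_true] at h6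
  rcases le_total ((S.filter fun x => φ x ∉ B).filter fun x => sd (φ x) = true).card
    ((S.filter fun x => φ x ∉ B).filter fun x => sd (φ x) = false).card with e | e
  · exact ⟨_, (filter_subset _ _).trans (filter_subset _ _), _, h7 false, h4, by omega⟩
  · exact ⟨_, (filter_subset _ _).trans (filter_subset _ _), _, h7 true, h4, by omega⟩

end Pool.Agent.MP_251804_lc.Mc
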