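import Pool.Agent.MP_251804_lc.Mc.St

/-! The walk with halvings and the final colouring. -/

set_option autoImplicit false

namespace Pool.Agent.MP_251804_lc.Mc
open Finset Filter Ed

lemma Wd_succ (h r p : ℕ) : Wd h r (p + 1) = (Wd h r p - h + 1) / 2 :=
  Function.iterate_succ_apply' _ _ _

lemma Wd_le (h r p : ℕ) : Wd h r p ≤ r := by
  induction p with
  | zero => exact le_rfl
  | succ p ih => rw [Wd_succ]; omega

lemma half_Proc {E : ℕ → ℕ → Prop} (hE : Gr E) {X : Finset ℕ} {w r T : ℕ} {δ β N : ℝ}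
    (hX : X.Nonempty) (hδ : 0 < δ) (hβ : 0 < β) (h1 : 2 * β ≤ δ ^ T)
    (h2 : 2 * N ^ r * β ^ T < δ ^ T) (hN : (X.card : ℝ) ≤ N) (hw : w ≤ r)
    (hd : δ * X.card ^ 2 ≤ ec E X) (hn : ¬ Has E w X) :
    ∃ Y ⊆ X, β * X.card ≤ Y.card ∧ ¬ Has E ((w + 1) / 2) Y := by
  have x1 : (1 : ℝ) ≤ X.card := by exact_mod_cast card_pos.2 hX
  have w1 := pos_of_not_has hn
  by_cases hb : ∃ K ∈ cl E ((w + 1) / 2) X, β * X.card ≤ (nb E K X).card
  · obtain ⟨K, k1, k2⟩ := hb
    exact ⟨_, nb_subset _ _ _, k2, fun h => not_has_nb hE k1 hn (h.le (by omega))⟩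
  push Not at hb
  obtain ⟨A, a1, a2, a3⟩ := drcP E hE X ((w + 1) / 2) T δ (β * X.card) hX hδ (by positivity) hd
    fun K hK => (hb K hK).le
  refine ⟨A, a1, by nlinarith, fun h => ?_⟩
  have c1 : (1 : ℝ) ≤ (cl E ((w + 1) / 2) A).card := by exact_mod_cast card_pos.2 (has_iff.1 h)
  rw [mul_div_cancel_right₀ _ (by positivity)] at a3
  have c2 : (X.card : ℝ) ^ ((w + 1) / 2) ≤ N ^ r :=
    (pow_le_pow_right₀ x1 (by omega)).trans (pow_le_pow_left₀ (by positivity) hN r)
  have c3 := mul_le_mul_of_nonneg_right c2 (pow_pos hβ T).le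
  have c4 := le_mul_of_one_le_right (pow_pos hδ T).le c1
  linarith

lemma step_Proc {E : ℕ → ℕ → Prop} (hE : Gr E) {X : Finset ℕ} {w : ℕ} {δ : ℝ} (hX : X.Nonempty)
    (hd : δ * X.card ^ 2 ≤ ec E X) (hn : ¬ Has E w X) :
    ∃ Y ⊆ X, δ * X.card ≤ Y.card ∧ ¬ Has E (w - 1) Y := by
  obtain ⟨v, hv, h⟩ := exists_le_of_sum_le (f := fun _ => δ * X.card)
    (g := fun v => ((nb E {v} X).card : ℝ)) hX (by
      rw [sum_const, nsmul_eq_mul, ← Nat.cast_sum, ← ec_eq_sum]
      linarith)
  exact ⟨_, nb_subset _ _ _, h, not_has_nb hE (mem_cl.2 ⟨by simpa using hv, rfl,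
    fun x hx y hy e => absurd ((mem_singleton.1 hx).trans (mem_singleton.1 hy).symm) e⟩) hn⟩

lemma sum_upd {k i b : ℕ} (x : ℕ → ℕ) (hi : i < k) :
    ∑ a ∈ range k, Function.update x i b a + x i = ∑ a ∈ range k, x a + b := by
  rw [sum_update_of_mem (mem_range.2 hi), ← sum_sdiff (singleton_subset_iff.2 (mem_range.2 hi)) (f := x),
    sum_singleton]
  omega

lemma cnt_upd (τ : ℕ → ℕ) (t i i' : ℕ) :
    ((range (t + 1)).filter fun a => Function.update τ t i a = i').card =
      ((range t).filter fun a => τ a = i').card + if i = i' then 1 else 0 := by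
  rw [card_filter, card_filter, sum_range_succ, Function.update_self]
  congr 1
  exact sum_congr rfl fun a ha => by rw [Function.update_of_ne (mem_range.1 ha).ne]

theorem procP : ProcP := by
  intro E hE k r h j T X₀ δ β z d0 d1 b0 b1 b2 z0 z1 hden hno
  have b3 : β ≤ 1 := by linarith [pow_le_one₀ (n := T) d0.le d1]
  have big : ∀ {s t : ℕ} {x : ℕ → ℕ} {X : Finset ℕ}, t ≤ j → (∀ i < k, x i ≤ h) →
      s = ∑ i ∈ range k, x i + h * t → δ ^ s * β ^ t * X₀.card ≤ X.card →
      s ≤ (k + j) * h ∧ z ≤ X.card := fun {s t x X} a b c d => by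
    have e : s ≤ (k + j) * h := by
      have : ∑ i ∈ range k, x i ≤ k * h := by
        simpa using sum_le_card_nsmul (range k) x h fun i hi => b i (mem_range.1 hi)
      have := Nat.mul_le_mul_left h a
      rw [c, add_mul, mul_comm j]
      omega
    refine ⟨e, z1.trans (le_trans ?_ d)⟩
    have := pow_le_pow_of_le_one d0.le d1 e
    have := pow_le_pow_of_le_one b0.le b3 a
    gcongr
  have key : ∀ n : ℕ, ∃ (t s : ℕ) (X : Finset ℕ) (τ x : ℕ → ℕ), t ≤ j ∧ X ⊆ X₀ ∧
      δ ^ s * β ^ t * X₀.card ≤ X.card ∧ (∀ a < t, τ a < k) ∧ (∀ i < k, x i ≤ h) ∧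
      (∀ i < k, ¬ Has (E i) (Wd h r ((range t).filter fun a => τ a = i).card - x i) X) ∧
      s = ∑ i ∈ range k, x i + h * t ∧ (t = j ∨ n ≤ s + t) := fun n => by
    induction n with
    | zero => exact ⟨0, 0, X₀, id, 0, by simp, Subset.rfl, by simp, by simp, by simp,
        fun i hi => by simpa [Wd] using hno i hi, by simp, by simp⟩
    | succ n ih =>
      obtain ⟨t, s, X, τ, x, a1, a2, a3, a4, a5, a6, a7, a8⟩ := ih
      by_cases e : t = j
      · exact ⟨t, s, X, τ, x, a1, a2, a3, a4, a5, a6, a7, Or.inl e⟩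
      have zX := (big a1 a5 a7 a3).2
      have ne : X.Nonempty := card_pos.1 (by exact_mod_cast z0.trans_le zX)
      obtain ⟨i, hi, hd⟩ := hden X a2 zX
      rcases (a5 i hi).lt_or_eq with c | c
      · obtain ⟨Y, y1, y2, y3⟩ := step_Proc (hE i) ne hd (a6 i hi)
        have := sum_upd (b := x i + 1) x hi
        refine ⟨t, s + 1, Y, τ, Function.update x i (x i + 1), a1, y1.trans a2, ?_, a4,
          fun i' hi' => ?_, fun i' hi' => ?_, by omega, Or.inr (by omega)⟩
        · refine le_trans ?_ y2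
          have := mul_le_mul_of_nonneg_left a3 d0.le
          rw [pow_succ]
          linarith
        · by_cases q : i' = i
          · rw [q, Function.update_self]; omega
          · rw [Function.update_of_ne q]; exact a5 i' hi'
        · by_cases q : i' = i
          · rw [q, Function.update_self]; exact y3
          · rw [Function.update_of_ne q]; exact fun u => a6 i' hi' (u.sub y1)
      · obtain ⟨Y, y1, y2, y3⟩ := half_Proc (hE i) ne d0 b0 b1 b2
          (by exact_mod_cast card_le_card a2) ((Nat.sub_le _ _).trans (Wd_le _ _ _)) hd (a6 i hi)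
        have := sum_upd (b := 0) x hi
        refine ⟨t + 1, s, Y, Function.update τ t i, Function.update x i 0, by omega, y1.trans a2,
          ?_, fun a ha => ?_, fun i' hi' => ?_, fun i' hi' => ?_, by rw [mul_add]; omega,
          Or.inr (by omega)⟩
        · refine le_trans ?_ y2
          have := mul_le_mul_of_nonneg_left a3 b0.le
          rw [pow_succ]
          linarith
        · by_cases q : a = t
          · rwa [q, Function.update_self]
          · rw [Function.update_of_ne q]; exact a4 a (by omega)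
        · by_cases q : i' = i
          · rw [q, Function.update_self]; omega
          · rw [Function.update_of_ne q]; exact a5 i' hi'
        · rw [cnt_upd]
          by_cases q : i' = i
          · rw [q, Function.update_self, if_pos rfl, Wd_succ]; exact c ▸ y3
          · rw [Function.update_of_ne q, if_neg (Ne.symm q)]; exact fun u => a6 i' hi' (u.sub y1)
  obtain ⟨t, s, X, τ, x, a1, a2, a3, a4, a5, a6, a7, a8⟩ := key ((k + j) * h + j + 1)
  obtain ⟨b4, b5⟩ := big a1 a5 a7 a3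
  obtain rfl : t = j := by omega
  exact ⟨X, a2, b5, τ, a4, fun i hi u => a6 i hi (u.le (Nat.sub_le _ _))⟩

lemma ind_Fil {H : ℕ → ℕ → ℕ → Prop} {g r : ℕ} (hL : ∀ a, Loc g r (H a)) (hg : 1 ≤ g)
    (A : Finset ℕ) {S : Finset ℕ} (hS : S.card = r) :
    ∃ I ⊆ S, I.card = Wd (r / g) r A.card ∧ ∀ a ∈ A, Indp (H a) I := by
  induction A using Finset.induction_on with
  | empty => exact ⟨S, Subset.rfl, hS, by simp⟩
  | insert a A ha ih =>
    obtain ⟨I, i1, i2, i3⟩ := ih
    have i4 : I.card ≤ r := i2 ▸ Wd_le _ _ _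
    obtain ⟨J, j1, f, j2, j3, j4⟩ := hL a I i4
    have : f ≤ r / g := (Nat.le_div_iff_mul_le hg).2 (by rw [mul_comm]; omega)
    obtain ⟨K, k1, k2⟩ := exists_subset_card_eq (s := J) (n := (I.card - r / g + 1) / 2) (by omega)
    refine ⟨K, k1.trans (j1.trans i1), by rw [card_insert_of_notMem ha, Wd_succ, k2, i2],
      fun b hb x hx y hy => ?_⟩
    rcases mem_insert.1 hb with rfl | hb
    · exact j2 x (k1 hx) y (k1 hy)
    · exact i3 b hb x (j1 (k1 hx)) y (j1 (k1 hy))

theorem filP : FilP := by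
  classical
  intro H g r j k M c τ Y hG hL hg hc hτ hM hno
  obtain ⟨d, d1, d2, d3⟩ : ∃ d : Finset ℕ → ℕ, (∀ T, d T < k) ∧
      (∀ x y, (∃ a < j, H a x y) → ∃ a < j, H a x y ∧ d {x, y} = τ a) ∧
      ∀ x y, (¬ ∃ a < j, H a x y) → d {x, y} = c {x, y} := by
    have k2 : ∀ a x y, (∃ u ∈ ({x, y} : Finset ℕ), ∃ v ∈ ({x, y} : Finset ℕ), H a u v) →
        H a x y := by
      simp only [mem_insert, mem_singleton]
      rintro a x y ⟨u, rfl | rfl, v, rfl | rfl, h⟩
      · exact absurd h ((hG a).2 _)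
      · exact h
      · exact (hG a).1 _ _ h
      · exact absurd h ((hG a).2 _)
    refine ⟨fun T => if h : ∃ a < j, ∃ u ∈ T, ∃ v ∈ T, H a u v then τ h.choose else c T,
      fun T => ?_, fun x y ⟨a, h1, h2⟩ => ?_, fun x y h => dif_neg fun ⟨a, h1, h2⟩ =>
        h ⟨a, h1, k2 a x y h2⟩⟩
    · beta_reduce
      split_ifs with h
      · exact hτ _ h.choose_spec.1
      · exact hc T
    · have h : ∃ a < j, ∃ u ∈ ({x, y} : Finset ℕ), ∃ v ∈ ({x, y} : Finset ℕ), H a u v :=
        ⟨a, h1, x, by simp, y, by simp, h2⟩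
      exact ⟨_, h.choose_spec.1, k2 _ x y h.choose_spec.2, dif_pos h⟩
  have key : ∀ i < k, ¬ Has (col (fun _ _ => False) d i) r Y := by
    rintro i hi ⟨S, s1, s2, s3⟩
    obtain ⟨I, i1, i2, i3⟩ := ind_Fil hL hg ((range j).filter fun a => τ a = i) s2
    refine hno i hi ⟨I, i1.trans s1, i2, fun x hx y hy e => ?_⟩
    have q := (s3 x (i1 hx) y (i1 hy) e).2.2
    have n : ¬ ∃ a < j, H a x y := fun h => by
      obtain ⟨a, h1, h2, h3⟩ := d2 x y h
      exact i3 a (mem_filter.2 ⟨mem_range.2 h1, h3.symm.trans q⟩) x hx y hy h2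
    exact ⟨e, n, (d3 x y n).symm.trans q⟩
  have k0 : 0 < k := (Nat.zero_le _).trans_lt (hc ∅)
  exact fillP (fun _ _ => False) ⟨fun _ _ h => h, fun _ h => h⟩ k 0 r M d Y d1 k0 hM
    (by simpa using key 0 k0) fun i hi _ => key i hi

end Pool.Agent.MP_251804_lc.Mc
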