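import Pool.Agent.MP_251804_lc.Mc.St

set_option autoImplicit false

namespace Pool.Agent.MP_251804_lc.Mc
open Finset Filter Ed

open Classical in
lemma pair_Pul {n M : ℕ} {Γ : ℕ → ℕ → Prop} (hG : Gr Γ) {κ : ℝ} (hκ : 0 < κ)
    (he : (ec Γ (range M) : ℝ) ≤ κ * M ^ 2) (x y : Fin n) :
    ((univ.filter fun φ : Fin n → Fin M => Γ (φ x) (φ y)).card : ℝ) ≤ κ * (M : ℝ) ^ n := by
  by_cases hxy : x = y
  · subst hxy
    rw [filter_eq_empty_iff.2 fun φ _ => hG.2 _, card_empty, Nat.cast_zero]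
    positivity
  have h2 : ({x, y} : Finset (Fin n)).card = 2 := card_pair hxy
  have hn : 2 ≤ n := by simpa [h2] using card_le_univ ({x, y} : Finset (Fin n))
  have hc : (univ : Finset ({i // i ∉ ({x, y} : Finset (Fin n))} → Fin M)).card = M ^ (n - 2) := by
    rw [card_univ, Fintype.card_fun, Fintype.card_fin, Fintype.card_subtype_compl,
      Fintype.card_fin, Fintype.card_coe, h2]
  have h3 : (univ.filter fun φ : Fin n → Fin M => Γ (φ x) (φ y)).card ≤
      ec Γ (range M) * M ^ (n - 2) := by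
    rw [ec, ← hc, ← card_product]
    refine card_le_card_of_injOn (fun φ => (((φ x : ℕ), (φ y : ℕ)),
      fun i : {i // i ∉ ({x, y} : Finset (Fin n))} => φ i.1)) ?_ ?_
    · intro φ hφ
      exact mem_coe.2 (mem_product.2 ⟨mem_filter.2 ⟨mem_product.2
        ⟨mem_range.2 (φ x).2, mem_range.2 (φ y).2⟩, (mem_filter.1 (mem_coe.1 hφ)).2⟩, mem_univ _⟩)
    · intro φ _ φ' _ h
      obtain ⟨h1, h4⟩ := Prod.mk.inj h
      obtain ⟨h5, h6⟩ := Prod.mk.inj h1
      funext i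
      by_cases hi : i ∈ ({x, y} : Finset (Fin n))
      · rcases mem_insert.1 hi with rfl | hi
        · exact Fin.ext h5
        · rw [mem_singleton.1 hi]; exact Fin.ext h6
      · exact congrFun h4 ⟨i, hi⟩
  obtain ⟨q, rfl⟩ := Nat.exists_eq_add_of_le hn
  rw [Nat.add_sub_cancel_left] at h3
  calc _ ≤ (ec Γ (range M) : ℝ) * (M : ℝ) ^ q := by exact_mod_cast h3
    _ ≤ κ * M ^ 2 * (M : ℝ) ^ q := by gcongr
    _ = _ := by ring

open Classical in
lemma step_Pul {n M : ℕ} (hn : 1 ≤ n) (hM : 1 ≤ M) {Γ : ℕ → ℕ → Prop} (hG : Gr Γ) {κ β b : ℝ}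
    (hκ : 0 < κ) (hβ : 0 < β) (hb : 0 < b) (he : (ec Γ (range M) : ℝ) ≤ κ * M ^ 2)
    (Ind : Finset (Fin M) → Prop) (F : Finset (Finset (Fin n))) (hF : (F.card : ℝ) ≤ b)
    (h : ∀ S ∈ F, ((univ.filter fun φ : Fin n → Fin M => Ind (S.image φ)).card : ℝ) ≤
      β * (M : ℝ) ^ n) :
    ∃ φ : Fin n → Fin M, ((F.filter fun S => Ind (S.image φ)).card : ℝ) ≤ b * (2 * β) ∧
      ((univ.filter fun p : Fin n × Fin n => Γ (φ p.1) (φ p.2)).card : ℝ) ≤ 2 * κ * n ^ 2 := by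
  have : Nonempty (Fin M) := ⟨⟨0, hM⟩⟩
  have hnR : (0 : ℝ) < n := by exact_mod_cast hn
  have e1 : ∑ φ : Fin n → Fin M, ((F.filter fun S => Ind (S.image φ)).card : ℝ) ≤
      b * (β * (M : ℝ) ^ n) := by
    have e : ∑ φ : Fin n → Fin M, ((F.filter fun S => Ind (S.image φ)).card : ℝ) =
        ∑ S ∈ F, ((univ.filter fun φ : Fin n → Fin M => Ind (S.image φ)).card : ℝ) := by
      simp only [card_eq_sum_ones, sum_filter]
      push_cast
      exact sum_comm
    rw [e]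
    refine (sum_le_card_nsmul _ _ _ h).trans ?_
    rw [nsmul_eq_mul]
    gcongr
  have e2 : ∑ φ : Fin n → Fin M,
      ((univ.filter fun p : Fin n × Fin n => Γ (φ p.1) (φ p.2)).card : ℝ) ≤
      n ^ 2 * (κ * (M : ℝ) ^ n) := by
    have e : ∑ φ : Fin n → Fin M,
        ((univ.filter fun p : Fin n × Fin n => Γ (φ p.1) (φ p.2)).card : ℝ) =
        ∑ p : Fin n × Fin n,
          ((univ.filter fun φ : Fin n → Fin M => Γ (φ p.1) (φ p.2)).card : ℝ) := by
      simp only [card_eq_sum_ones, sum_filter]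
      push_cast
      exact sum_comm
    rw [e]
    refine (sum_le_card_nsmul _ _ _ fun p _ => pair_Pul hG hκ he p.1 p.2).trans (le_of_eq ?_)
    simp [sq]
  have : ∑ φ : Fin n → Fin M, (((F.filter fun S => Ind (S.image φ)).card : ℝ) / (b * (2 * β)) +
      ((univ.filter fun p : Fin n × Fin n => Γ (φ p.1) (φ p.2)).card : ℝ) / (2 * κ * n ^ 2)) ≤
      ∑ _φ : Fin n → Fin M, (1 : ℝ) := by
    rw [sum_add_distrib, ← sum_div, ← sum_div]
    calc _ ≤ b * (β * (M : ℝ) ^ n) / (b * (2 * β)) +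
          n ^ 2 * (κ * (M : ℝ) ^ n) / (2 * κ * n ^ 2) := by gcongr
      _ = (M : ℝ) ^ n := by field_simp; ring
      _ = _ := by simp
  obtain ⟨φ, -, hφ⟩ := exists_le_of_sum_le univ_nonempty this
  have p1 : 0 ≤ ((F.filter fun S => Ind (S.image φ)).card : ℝ) / (b * (2 * β)) := by positivity
  have p2 : 0 ≤ ((univ.filter fun p : Fin n × Fin n => Γ (φ p.1) (φ p.2)).card : ℝ) /
    (2 * κ * n ^ 2) := by positivity
  exact ⟨φ, (div_le_one (by positivity)).1 (by linarith), (div_le_one (by positivity)).1 (by linarith)⟩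

open Classical in
lemma iter_Pul {n M : ℕ} (hn : 1 ≤ n) (hM : 1 ≤ M) {Γ : ℕ → ℕ → Prop} (hG : Gr Γ) {κ β b : ℝ}
    (hκ : 0 < κ) (hβ : 0 < β) (hb : 0 < b) (he : (ec Γ (range M) : ℝ) ≤ κ * M ^ 2)
    (Ind : Finset (Fin M) → Prop) (F : Finset (Finset (Fin n))) (hF : (F.card : ℝ) ≤ b)
    (h : ∀ S ∈ F, ((univ.filter fun φ : Fin n → Fin M => Ind (S.image φ)).card : ℝ) ≤
      β * (M : ℝ) ^ n) (j : ℕ) :
    ∃ Φ : ℕ → Fin n → Fin M,
      ((F.filter fun S => ∀ t < j, Ind (S.image (Φ t))).card : ℝ) ≤ b * (2 * β) ^ j ∧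
      ∀ t < j, ((univ.filter fun p : Fin n × Fin n => Γ (Φ t p.1) (Φ t p.2)).card : ℝ) ≤
        2 * κ * n ^ 2 := by
  induction j with
  | zero => exact ⟨fun _ _ => ⟨0, hM⟩, by simpa using hF, fun t ht => by omega⟩
  | succ j ih =>
    obtain ⟨Φ, hΦ, hΦ'⟩ := ih
    obtain ⟨φ, hφ, hφ'⟩ := step_Pul hn hM hG hκ hβ (by positivity) he Ind _ hΦ
      (fun S hS => h S (mem_filter.1 hS).1)
    refine ⟨fun t => if t < j then Φ t else φ, le_trans ?_ (hφ.trans (le_of_eq (by ring))),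
      fun t _ => ?_⟩
    · refine Nat.cast_le.2 (card_le_card fun S hS => ?_)
      obtain ⟨h1, H⟩ := mem_filter.1 hS
      refine mem_filter.2 ⟨mem_filter.2 ⟨h1, fun t ht => ?_⟩, ?_⟩
      · simpa [ht] using H t (by omega)
      · simpa using H j (by omega)
    · by_cases c : t < j
      · simpa only [if_pos c] using hΦ' t c
      · simpa only [if_neg c] using hφ'

theorem pulP : PulP := by
  classical
  intro n M w j Γ u κ hG hM hw hn hu hκ hI he hlt
  have hMR : (0 : ℝ) < M := by exact_mod_cast hM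
  have hnR : (0 : ℝ) < n := by exact_mod_cast (by omega : 0 < n)
  obtain ⟨Φ, hΦ, hΦ'⟩ := iter_Pul (n := n) (β := (2 * (u / M)) ^ (w + 1)) (b := (n : ℝ) ^ (w + 1))
    (by omega) hM hG hκ (by positivity) (by positivity) he
    (fun A : Finset (Fin M) => ∀ x ∈ A, ∀ y ∈ A, ¬ Γ x y) (powersetCard (w + 1) univ)
    (by
      rw [card_powersetCard, card_univ, Fintype.card_fin]
      exact_mod_cast Nat.choose_le_pow n (w + 1))
    (fun S hS => by
      have := count_maps (fun A : Finset (Fin M) => ∀ x ∈ A, ∀ y ∈ A, ¬ Γ x y) (u / M)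
        (by positivity) (fun A hA => by
          have h1 := hI (A.map Fin.valEmbedding) (fun a ha => by
            obtain ⟨c, -, rfl⟩ := mem_map.1 ha
            exact mem_range.2 c.2) (fun a ha c hc => by
            obtain ⟨a', ha', rfl⟩ := mem_map.1 ha
            obtain ⟨c', hc', rfl⟩ := mem_map.1 hc
            exact hA a' ha' c' hc')
          rw [card_map] at h1
          rw [Fintype.card_fin, div_mul_cancel₀ _ hMR.ne']
          exact h1) (by simpa using hw) S (mem_powersetCard.1 hS).2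
      rw [Fintype.card_fin] at this
      convert this) j
  have h1 : (n : ℝ) ^ (w + 1) * (2 * (2 * (u / M)) ^ (w + 1)) ^ j < 1 := by
    have h2 : 2 * (2 * (u / M)) ^ (w + 1) ≤ (4 * u / M) ^ (w + 1) := by
      rw [show 4 * u / M = 2 * (2 * (u / M)) by ring, mul_pow 2 (2 * (u / M))]
      gcongr
      exact le_self_pow₀ (by norm_num) (by omega)
    calc _ ≤ (n : ℝ) ^ (w + 1) * ((4 * u / M) ^ (w + 1)) ^ j := by gcongr
      _ = ((n : ℝ) * (4 * u / M) ^ j) ^ (w + 1) := by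
        rw [mul_pow, ← pow_mul, ← pow_mul, mul_comm j]
      _ < 1 := pow_lt_one₀ (by positivity) hlt (by omega)
  have hemp := card_eq_zero.1 (Nat.lt_one_iff.1 (Nat.cast_lt_one.1 (hΦ.trans_lt h1) ▸ one_pos))
  replace hemp := (@filter_eq_empty_iff _ _ (_) _).1 hemp
  obtain ⟨ψ, hψ⟩ : ∃ ψ : ℕ → ℕ → ℕ, ∀ t (a : Fin n), ψ t a = Φ t a :=
    ⟨fun t a => if h : a < n then (Φ t ⟨a, h⟩ : ℕ) else 0, fun t a => dif_pos a.2⟩
  refine ⟨ψ, fun S hS hc => ?_, fun a ha => le_trans (Nat.cast_le.2 ?_) (hΦ' a ha)⟩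
  · have hlt' : ∀ m ∈ S, m < n := fun m hm => mem_range.1 (hS hm)
    have h2 := hemp (x := S.attachFin hlt')
      (mem_powersetCard.2 ⟨subset_univ _, by rw [card_attachFin, hc]⟩)
    simp only [not_forall, not_not] at h2
    obtain ⟨t, ht, x, hx, y, hy, hxy⟩ := h2
    obtain ⟨a, ha, rfl⟩ := mem_image.1 hx
    obtain ⟨b, hb, rfl⟩ := mem_image.1 hy
    rw [mem_attachFin] at ha hb
    exact ⟨a, ha, b, hb, t, ht, by rw [hψ, hψ]; exact hxy⟩
  · rw [ec]
    refine le_trans (card_le_card fun p hp => ?_)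
      (card_image_le (f := fun p : Fin n × Fin n => ((p.1 : ℕ), (p.2 : ℕ))))
    obtain ⟨h2, h3⟩ := mem_filter.1 hp
    obtain ⟨h4, h5⟩ := mem_product.1 h2
    refine mem_image.2 ⟨(⟨p.1, mem_range.1 h4⟩, ⟨p.2, mem_range.1 h5⟩),
      mem_filter.2 ⟨mem_univ _, ?_⟩, rfl⟩
    rw [← hψ, ← hψ]
    exact h3

end Pool.Agent.MP_251804_lc.Mc
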