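import Pool.Agent.Mg.F251804a.G0d93e0

/-! Many colours on edges: definitions and the statements of the steps. -/

set_option autoImplicit false

namespace Pool.Agent.MP_251804_lc.Mc
open Finset Filter Ed

/-- Every small set has an independent subset of almost half its size. -/
def Loc (g r : ℕ) (H : ℕ → ℕ → Prop) : Prop := ∀ S : Finset ℕ, S.card ≤ r →
  ∃ I ⊆ S, ∃ f : ℕ, Indp H I ∧ g * f ≤ S.card ∧ S.card ≤ 2 * I.card + f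

/-- A nonempty set of `s ≤ r` points spans at most `s - 1 + s / g` edges. -/
def Spr (g r : ℕ) (Γ : ℕ → ℕ → Prop) : Prop := ∀ C : Finset ℕ, C.Nonempty → C.card ≤ r →
  g * ec Γ C + 2 * g ≤ 2 * (g + 1) * C.card

/-- The clique bound after `p` halvings. -/
def Wd (h r p : ℕ) : ℕ := (fun w => (w - h + 1) / 2)^[p] r

def GamP : Prop := ∀ (M g r u : ℕ) (p D : ℝ), 1 ≤ g → 1 ≤ r → 1 ≤ M → 0 < p → p ≤ 1 → 1 ≤ D →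
  r ^ 2 * p * M ≤ D → D ^ (g + 1) ≤ M → Real.log M + 2 ≤ p * u / 2 →
  ∃ Γ : ℕ → ℕ → Prop, Gr Γ ∧ Spr g r Γ ∧ (ec Γ (range M) : ℝ) ≤ 4 * p * M ^ 2 ∧
    ∀ I ⊆ range M, Indp Γ I → (I.card : ℝ) ≤ u + 4 * r ^ 2 * D ^ (g + 1)

def LocP : Prop := ∀ (g r : ℕ) (Γ : ℕ → ℕ → Prop), Gr Γ → Spr g r Γ →
  ∀ φ : ℕ → ℕ, Loc g r fun x y => Γ (φ x) (φ y)

def PulP : Prop := ∀ (n M w j : ℕ) (Γ : ℕ → ℕ → Prop) (u κ : ℝ), Gr Γ → 1 ≤ M → M ≤ w + 1 →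
  w + 1 ≤ n → 0 < u → 0 < κ → (∀ I ⊆ range M, Indp Γ I → (I.card : ℝ) ≤ u) →
  (ec Γ (range M) : ℝ) ≤ κ * M ^ 2 → n * (4 * u / M) ^ j < 1 →
  ∃ ψ : ℕ → ℕ → ℕ, (∀ S ⊆ range n, S.card = w + 1 →
      ∃ x ∈ S, ∃ y ∈ S, ∃ a < j, Γ (ψ a x) (ψ a y)) ∧
    ∀ a < j, (ec (fun x y => Γ (ψ a x) (ψ a y)) (range n) : ℝ) ≤ 2 * κ * n ^ 2

def ProcP : Prop := ∀ E : ℕ → ℕ → ℕ → Prop, (∀ i, Gr (E i)) →
  ∀ (k r h j T : ℕ) (X₀ : Finset ℕ) (δ β z : ℝ), 0 < δ → δ ≤ 1 → 0 < β → 2 * β ≤ δ ^ T →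
  2 * (X₀.card : ℝ) ^ r * β ^ T < δ ^ T → 0 < z → z ≤ δ ^ ((k + j) * h) * β ^ j * X₀.card →
  (∀ X ⊆ X₀, z ≤ X.card → ∃ i < k, δ * X.card ^ 2 ≤ ec (E i) X) → (∀ i < k, ¬ Has (E i) r X₀) →
  ∃ X ⊆ X₀, z ≤ X.card ∧ ∃ τ : ℕ → ℕ, (∀ a < j, τ a < k) ∧
    ∀ i < k, ¬ Has (E i) (Wd h r ((range j).filter fun a => τ a = i).card) X

def FilP : Prop := ∀ (H : ℕ → ℕ → ℕ → Prop) (g r j k M : ℕ) (c : Finset ℕ → ℕ) (τ : ℕ → ℕ)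
  (Y : Finset ℕ), (∀ a, Gr (H a)) → (∀ a, Loc g r (H a)) → 1 ≤ g → (∀ T, c T < k) →
  (∀ a < j, τ a < k) → M ≤ Y.card →
  (∀ i < k, ¬ Has (col (fun x y => ∃ a < j, H a x y) c i)
    (Wd (r / g) r ((range j).filter fun a => τ a = i).card) Y) → Good M k 2 r

end Pool.Agent.MP_251804_lc.Mc
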